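import Pool.Agent.helper4.GA.Spec

set_option autoImplicit false

/-!
# MP_3c0a64_an, gauge form, row PSV (Parseval)
-/

namespace Pool.Agent.GA

open Finset
open Pool.Agent.helper32.Cant

theorem PSV_neg (hCHR : CHR_stmt) {M : ℕ} [NeZero M] (ξ v : ZMod M) :
    ch ξ (-v) = (starRingEnd ℂ) (ch ξ v) := by
  rw [← (hCHR M).2.2.2 ξ v]
  unfold ch
  rw [mul_neg, neg_mul]

theorem PSV_orth {M : ℕ} [NeZero M] (v : ZMod M) :
    ∑ ξ : ZMod M, ch ξ v = if v = 0 then (M : ℂ) else 0 := by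
  unfold ch
  have h := AddChar.sum_mulShift (R := ZMod M) (R' := ℂ) v (ZMod.isPrimitive_stdAddChar M)
  rw [h, ZMod.card]
  split_ifs
  · rfl
  · exact Nat.cast_zero

theorem PSV_parseval (hCHR : CHR_stmt) {M : ℕ} [NeZero M] (f : ZMod M → ℝ) :
    ∑ ξ : ZMod M, ‖∑ v, ((f v : ℝ) : ℂ) * ch ξ v‖ ^ 2 = M * ∑ v, (f v) ^ 2 := by
  apply Complex.ofReal_injective
  push_cast
  have h1 : ∀ ξ : ZMod M, ((‖∑ v, ((f v : ℝ) : ℂ) * ch ξ v‖ : ℝ) : ℂ) ^ 2 =
      ∑ v, ∑ w, ((f v : ℝ) : ℂ) * ((f w : ℝ) : ℂ) * ch ξ (v - w) := by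
    intro ξ
    rw [← Complex.mul_conj', map_sum, Finset.sum_mul_sum]
    apply Finset.sum_congr rfl
    intro v _
    apply Finset.sum_congr rfl
    intro w _
    rw [map_mul, Complex.conj_ofReal, ← PSV_neg hCHR, sub_eq_add_neg, (hCHR M).2.1]
    ring
  rw [Finset.sum_congr rfl (fun ξ _ => h1 ξ), Finset.sum_comm, Finset.mul_sum]
  apply Finset.sum_congr rfl
  intro v _
  rw [Finset.sum_comm]
  have h2 : ∀ w : ZMod M, ∑ ξ : ZMod M, ((f v : ℝ) : ℂ) * ((f w : ℝ) : ℂ) * ch ξ (v - w) =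
      if w = v then ((f v : ℝ) : ℂ) * ((f w : ℝ) : ℂ) * (M : ℂ) else 0 := by
    intro w
    rw [← Finset.mul_sum, PSV_orth]
    by_cases hw : w = v
    · rw [if_pos hw, if_pos (by rw [hw, sub_self])]
    · rw [if_neg hw, if_neg (fun h => hw (sub_eq_zero.1 h).symm), mul_zero]
  rw [Finset.sum_congr rfl (fun w _ => h2 w), Finset.sum_ite_eq' Finset.univ v,
    if_pos (Finset.mem_univ v)]
  ring

theorem PSV_val {M : ℕ} [NeZero M] {L : ℕ} (hL : L ≤ M) (g : ZMod M → ℂ) :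
    ∑ t : ZMod M, ((ind (t.val < L) : ℝ) : ℂ) * g t = ∑ d ∈ range L, g (d : ZMod M) := by
  have h1 : ∀ t : ZMod M, ((ind (t.val < L) : ℝ) : ℂ) * g t = if t.val < L then g t else 0 := by
    intro t
    unfold ind
    by_cases h : t.val < L
    · rw [if_pos h, if_pos h, Complex.ofReal_one, one_mul]
    · rw [if_neg h, if_neg h, Complex.ofReal_zero, zero_mul]
  rw [Finset.sum_congr rfl (fun t _ => h1 t), ← Finset.sum_filter]
  apply Finset.sum_bij' (fun (t : ZMod M) _ => t.val) (fun (d : ℕ) _ => (d : ZMod M))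
  · intro t ht
    rw [Finset.mem_filter] at ht
    exact Finset.mem_range.2 ht.2
  · intro d hd
    rw [Finset.mem_range] at hd
    rw [Finset.mem_filter]
    refine ⟨Finset.mem_univ _, ?_⟩
    rw [ZMod.val_natCast_of_lt (lt_of_lt_of_le hd hL)]
    exact hd
  · intro t _
    exact ZMod.natCast_zmod_val t
  · intro d hd
    rw [Finset.mem_range] at hd
    exact ZMod.val_natCast_of_lt (lt_of_lt_of_le hd hL)
  · intro t _
    rw [ZMod.natCast_zmod_val]

/-- The transform of the multiplier. -/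
theorem PSV_H (hCHR : CHR_stmt) {M : ℕ} [NeZero M] {L : ℕ} (hL : L ≤ M) (ξ : ZMod M) :
    ‖∑ t : ZMod M, (((ind (t.val < L) - ind ((t - (L : ZMod M)).val < L)) : ℝ) : ℂ) * ch ξ (-t)‖ ^ 2
      = mult L ξ := by
  have h1 : ∑ t : ZMod M, ((ind ((t - (L : ZMod M)).val < L) : ℝ) : ℂ) * ch ξ (-t) =
      (∑ t : ZMod M, ((ind (t.val < L) : ℝ) : ℂ) * ch ξ (-t)) * ch ξ (-(L : ZMod M)) := by
    rw [← Equiv.sum_comp (Equiv.addRight (L : ZMod M)), Finset.sum_mul]
    apply Finset.sum_congr rfl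
    intro t _
    rw [Equiv.coe_addRight, add_sub_cancel_right, neg_add, (hCHR M).2.1]
    ring
  have h2 : ∑ t : ZMod M, (((ind (t.val < L) - ind ((t - (L : ZMod M)).val < L)) : ℝ) : ℂ)
      * ch ξ (-t) = (starRingEnd ℂ) (∑ d ∈ range L, ch ξ (d : ZMod M)) *
        (starRingEnd ℂ) (1 - ch ξ (L : ZMod M)) := by
    have h3 : ∀ t : ZMod M, (((ind (t.val < L) - ind ((t - (L : ZMod M)).val < L)) : ℝ) : ℂ)
        * ch ξ (-t) = ((ind (t.val < L) : ℝ) : ℂ) * ch ξ (-t) -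
          ((ind ((t - (L : ZMod M)).val < L) : ℝ) : ℂ) * ch ξ (-t) := by
      intro t
      push_cast
      ring
    rw [Finset.sum_congr rfl (fun t _ => h3 t), Finset.sum_sub_distrib, h1,
      PSV_val hL (fun t => ch ξ (-t)), map_sub, map_one, ← PSV_neg hCHR, map_sum]
    have h4 : ∑ d ∈ range L, ch ξ (-(d : ZMod M)) =
        ∑ d ∈ range L, (starRingEnd ℂ) (ch ξ (d : ZMod M)) :=
      Finset.sum_congr rfl (fun d _ => PSV_neg hCHR ξ _)
    rw [h4]
    ring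
  rw [h2, norm_mul, mul_pow, RCLike.norm_conj, RCLike.norm_conj]
  rfl

theorem PSV (hCHR : CHR_stmt) : PSV_stmt := by
  intro X _ M L _ a u hL
  have hM : (M : ℝ) ≠ 0 := by exact_mod_cast NeZero.ne M
  rw [eq_div_iff hM, mul_comm, ← PSV_parseval hCHR]
  apply Finset.sum_congr rfl
  intro ξ _
  rw [← PSV_H hCHR hL ξ, ← mul_pow, ← norm_mul]
  congr 2
  have h1 : ∀ v : ZMod M, ((∑ x, a x * (ind ((u x - v).val < L) -
      ind ((u x - v - (L : ZMod M)).val < L)) : ℝ) : ℂ) * ch ξ v =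
      ∑ x, (a x : ℂ) * ((((ind ((u x - v).val < L) -
      ind ((u x - v - (L : ZMod M)).val < L)) : ℝ) : ℂ) * ch ξ v) := by
    intro v
    push_cast
    rw [Finset.sum_mul]
    apply Finset.sum_congr rfl
    intro x _
    ring
  rw [Finset.sum_congr rfl (fun v _ => h1 v), Finset.sum_comm, Finset.sum_mul]
  apply Finset.sum_congr rfl
  intro x _
  rw [← Finset.mul_sum, mul_assoc]
  congr 1
  rw [← Equiv.sum_comp (Equiv.subLeft (u x)), Finset.mul_sum]
  apply Finset.sum_congr rfl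
  intro t _
  rw [Equiv.subLeft_apply, sub_sub_cancel, sub_eq_add_neg (u x) t, (hCHR M).2.1]
  ring

end Pool.Agent.GA
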